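import Pool.Agent.K1H54.GC2.E
import Pool.Agent.K1H66.GC.Cnt2
import Pool.Agent.K1H88.GC.Sqf2
import Pool.Agent.K1H38.GC.Mom2
import Pool.Agent.K1H1.GC.Int
import Pool.Agent.K1H29.GC.Sand

/-!
# The Good–Churchhouse variance for almost all twists of the Möbius function

For almost all Dirichlet characters `χ` modulo a prime `q`, the Möbius function twisted by `χ` has the variance
predicted by Good and Churchhouse in short intervals, with a power saving, uniformly for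
`q ^ ε ≤ X ≤ q ^ (1 / ε)`, `1 ≤ H ≤ X ^ (1 - ε)`, `H ≤ q ^ (1 / 2 - ε)`.

Dated 26 November 2026.
-/

set_option autoImplicit false

namespace Pool.Agent.Results.MP_0575cc_nt.AlmostAllTwists

open Finset

/-- the sum of `μ(n) χ(n)` over the integers `n ≥ 0` with `|n - x| < H / 2` (the range of the sum only makes it
finite; `μ(0) = 0`) -/
noncomputable def M {q : ℕ} (χ : DirichletCharacter ℂ q) (x H : ℝ) : ℂ :=
  ∑ n ∈ (range (⌈x + H⌉₊ + 1)).filter (fun n : ℕ => |(n : ℝ) - x| < H / 2),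
    ((ArithmeticFunction.moebius n : ℤ) : ℂ) * χ (n : ZMod q)

/-- the variance: the mean value of `‖M χ x H‖ ^ 2` over `X ≤ x ≤ 2 X` -/
noncomputable def V {q : ℕ} (χ : DirichletCharacter ℂ q) (X H : ℝ) : ℝ :=
  (1 / X) * ∫ x in X..2 * X, ‖M χ x H‖ ^ 2

/-- the characters modulo `q` whose variance differs from `6 / π² * H` by more than `C * H * X ^ (-δ)` for
some `X`, `H` with `q ^ ε ≤ X ≤ q ^ (1 / ε)`, `1 ≤ H ≤ X ^ (1 - ε)`, `H ≤ q ^ (1 / 2 - ε)` -/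
def Exceptional (q : ℕ) (ε δ C : ℝ) : Set (DirichletCharacter ℂ q) :=
  {χ | ∃ X H : ℝ, (q : ℝ) ^ ε ≤ X ∧ X ≤ (q : ℝ) ^ (1 / ε) ∧ 1 ≤ H ∧ H ≤ X ^ (1 - ε) ∧
    H ≤ (q : ℝ) ^ (1 / 2 - ε) ∧ C * (H * X ^ (-δ)) < |V χ X H - 6 / Real.pi ^ 2 * H|}

theorem M_eq {q : ℕ} (χ : DirichletCharacter ℂ q) (x H : ℝ) : M χ x H = Pool.Agent.K1H54.GC.MM χ x H := rfl

theorem V_eq {q : ℕ} (χ : DirichletCharacter ℂ q) (X H : ℝ) : V χ X H = Pool.Agent.K1H54.GC.VV χ X H := rfl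

theorem result (ε : ℝ) (hε : 0 < ε) : ∃ δ C : ℝ, 0 < δ ∧ ∀ q : ℕ, q.Prime →
    ((Exceptional q ε δ C).ncard : ℝ) ≤ C * (q : ℝ) ^ (1 - δ) := by
  classical
  obtain ⟨e, he⟩ : ∃ e : ℝ, e = min ε (1 / 2) := ⟨_, rfl⟩
  have he0 : 0 < e := by rw [he]; exact lt_min hε (by norm_num)
  have he1 : e ≤ ε := by rw [he]; exact min_le_left _ _
  have he2 : e ≤ 1 / 2 := by rw [he]; exact min_le_right _ _
  obtain ⟨δ, C, hδ, h⟩ := Pool.Agent.K1H54.GC2.main2 Pool.Agent.K1H66.GC.t_CNT2 Pool.Agent.K1H38.GC.t_MOM2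
    Pool.Agent.K1H88.GC.t_SQF2 (Pool.Agent.K1H29.GC.t_SAND Pool.Agent.K1H1.GC.t_INT) he0 he2
  refine ⟨δ, C, hδ, fun q hq => ?_⟩
  have : Fact q.Prime := ⟨hq⟩
  refine le_trans ?_ (h q)
  rw [← Set.ncard_coe_finset]
  have hq1 : (1 : ℝ) ≤ q := by exact_mod_cast hq.one_lt.le
  have hsub : Exceptional q ε δ C ⊆ (((univ : Finset (DirichletCharacter ℂ q)).filter
      (fun χ => χ ∈ Pool.Agent.K1H54.GC2.Dev2 q e δ C) : Finset (DirichletCharacter ℂ q)) :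
        Set (DirichletCharacter ℂ q)) := by
    rintro χ ⟨X, H, h1, h2, h3, h4, h5, h6⟩
    rw [Finset.coe_filter]
    refine ⟨Finset.mem_univ _, X, H, ?_, ?_, h3, ?_, ?_, h6⟩
    · exact (Real.rpow_le_rpow_of_exponent_le hq1 he1).trans h1
    · exact h2.trans (Real.rpow_le_rpow_of_exponent_le hq1 (one_div_le_one_div_of_le he0 he1))
    · have hX1 : 1 ≤ X := (Real.one_le_rpow hq1 hε.le).trans h1
      exact h4.trans (Real.rpow_le_rpow_of_exponent_le hX1 (by linarith))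
    · exact h5.trans (Real.rpow_le_rpow_of_exponent_le hq1 (by linarith))
  exact_mod_cast Set.ncard_le_ncard hsub (Finset.finite_toSet _)

end Pool.Agent.Results.MP_0575cc_nt.AlmostAllTwists
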