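import Pool.Agent.K1H54.GC2.B
import Pool.Agent.K1H54.GC.Fin3

/-!
The longer range, part 3: the second moment and the union bound.
-/

set_option autoImplicit false

namespace Pool.Agent.K1H54.GC2

open Finset Pool.Agent.K1H54.GC

/-- the hypothesis on the number of solutions -/
def HCN (η Cη : ℝ) : Prop := ∀ q A B j : ℕ, 1 ≤ q → 1 ≤ j → 1 ≤ B →
  ((solq q A B j).card : ℝ) ≤ Cη * ((B : ℝ) * j) ^ (1 + η) * ((B : ℝ) * j / q + 1)

lemma moment2 {η Cη : ℝ} (hη : 0 < η) (hC : 0 ≤ Cη) (hCNT : HCN η Cη) (hMOM : S_MOM2) {q : ℕ} [Fact q.Prime]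
    {U1 U2 J N : ℕ} (hUN : U2 ≤ 6 * N) (hJN : J ≤ 2 * N) :
    ∑ χ : DirichletCharacter ℂ q, QQ χ U1 U2 J ≤
      q * (Cη * (16 * (N : ℝ) ^ 2) ^ η * ((8 * N * J) * (8 * N * J / q + 1))) := by
  have hq0 : (0 : ℝ) < q := by exact_mod_cast (Fact.out : q.Prime).pos
  have hq1 : 1 ≤ q := (Fact.out : q.Prime).one_lt.le
  have hN0 : (0 : ℝ) ≤ N := Nat.cast_nonneg _
  unfold QQ
  rw [Finset.sum_comm]
  calc ∑ j ∈ Icc 1 J, ∑ χ : DirichletCharacter ℂ q, ‖ZZ χ U1 U2 j‖ ^ 2 / j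
      ≤ ∑ j ∈ Icc 1 J, (q : ℝ) * (Cη * (16 * (N : ℝ) ^ 2) ^ η * ((8 * N) * (8 * N * J / q + 1))) := by
        refine Finset.sum_le_sum fun j hj => ?_
        rw [Finset.mem_Icc] at hj
        have hj1 : (1 : ℝ) ≤ j := by exact_mod_cast hj.1
        have hj0 : (0 : ℝ) < j := by linarith
        have hJ1 : (j : ℝ) ≤ J := by exact_mod_cast hj.2
        rw [← Finset.sum_div]
        have h1 := hMOM q U1 U2 j
        have h2 := hCNT q (U1 + j) (U2 + j) j hq1 hj.1 (by omega)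
        rw [div_le_iff₀ hj0]
        refine h1.trans ?_
        rw [mul_assoc]
        refine mul_le_mul_of_nonneg_left ?_ hq0.le
        refine h2.trans ?_
        have hB8 : ((U2 + j : ℕ) : ℝ) ≤ 8 * N := by exact_mod_cast (by omega : U2 + j ≤ 8 * N)
        have hB1 : (1 : ℝ) ≤ ((U2 + j : ℕ) : ℝ) := by exact_mod_cast (by omega : 1 ≤ U2 + j)
        have hB0 : (0 : ℝ) < ((U2 + j : ℕ) : ℝ) := by linarith
        have hj2 : (j : ℝ) ≤ 2 * N := by exact_mod_cast (by omega : j ≤ 2 * N)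
        obtain ⟨B, hB⟩ : ∃ B : ℝ, B = ((U2 + j : ℕ) : ℝ) := ⟨_, rfl⟩
        rw [← hB] at hB8 hB1 hB0 ⊢
        have hBj0 : 0 < B * j := by positivity
        have hBj : B * j ≤ 16 * (N : ℝ) ^ 2 := by
          calc B * j ≤ (8 * N) * (2 * N) := by gcongr
            _ = _ := by ring
        rw [Real.rpow_add hBj0, Real.rpow_one]
        calc Cη * (B * j * (B * j) ^ η) * (B * j / q + 1)
            ≤ Cη * ((8 * N) * j * (16 * (N : ℝ) ^ 2) ^ η) * ((8 * N) * J / q + 1) := by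
              gcongr
          _ = _ := by ring
    _ = _ := by
        rw [Finset.sum_const, Nat.card_Icc, nsmul_eq_mul]
        have e : ((J + 1 - 1 : ℕ) : ℝ) = J := by simp
        rw [e]
        ring

open Classical in
lemma markov2 {q : ℕ} {U1 U2 J : ℕ} {L M : ℝ} (hL : 0 < L)
    (hM : ∑ χ : DirichletCharacter ℂ q, QQ χ U1 U2 J ≤ M) :
    (((univ : Finset (DirichletCharacter ℂ q)).filter (fun χ => L ^ 2 < QQ χ U1 U2 J)).card : ℝ) ≤ M / L ^ 2 := by
  rw [le_div_iff₀ (by positivity)]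
  refine le_trans ?_ hM
  calc (((univ : Finset (DirichletCharacter ℂ q)).filter (fun χ => L ^ 2 < QQ χ U1 U2 J)).card : ℝ) * L ^ 2
      = ∑ χ ∈ (univ : Finset (DirichletCharacter ℂ q)).filter (fun χ => L ^ 2 < QQ χ U1 U2 J), L ^ 2 := by
        rw [Finset.sum_const, nsmul_eq_mul]
    _ ≤ ∑ χ ∈ (univ : Finset (DirichletCharacter ℂ q)).filter (fun χ => L ^ 2 < QQ χ U1 U2 J), QQ χ U1 U2 J :=
        Finset.sum_le_sum fun χ hχ => (Finset.mem_filter.1 hχ).2.le
    _ ≤ _ := Finset.sum_le_sum_of_subset_of_nonneg (Finset.filter_subset _ _) fun χ _ _ => QQ_nonneg χ _ _ _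

open Classical in
lemma bad_card2 {q N g J : ℕ} {L M : ℝ} (hL : 0 < L) (hg : 1 ≤ g) (hM0 : 0 ≤ M)
    (hM : ∀ U1 U2 : ℕ, U2 ≤ 6 * N → ∑ χ : DirichletCharacter ℂ q, QQ χ U1 U2 J ≤ M) :
    (((univ : Finset (DirichletCharacter ℂ q)).filter (fun χ => χ ∈ Bad q N g J L)).card : ℝ) ≤
      (6 * N / g + 1) ^ 2 * (M / L ^ 2) := by
  set K := 6 * N / g with hK
  have hML0 : 0 ≤ M / L ^ 2 := by positivity
  have hsub : (univ : Finset (DirichletCharacter ℂ q)).filter (fun χ => χ ∈ Bad q N g J L) ⊆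
      (range (K + 1) ×ˢ range (K + 1)).biUnion (fun p =>
        if p.1 ≤ p.2 ∧ p.2 * g ≤ 6 * N then
          (univ : Finset (DirichletCharacter ℂ q)).filter (fun χ => L ^ 2 < QQ χ (p.1 * g) (p.2 * g) J) else ∅) := by
    intro χ hχ
    obtain ⟨a, b, hab, hb, h⟩ := (Finset.mem_filter.1 hχ).2
    rw [Finset.mem_biUnion]
    have hbK : b ≤ K := (Nat.le_div_iff_mul_le hg).2 hb
    refine ⟨(a, b), ?_, ?_⟩
    · rw [Finset.mem_product, Finset.mem_range, Finset.mem_range]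
      constructor <;> dsimp only <;> omega
    · dsimp only
      rw [if_pos ⟨hab, hb⟩, Finset.mem_filter]
      exact ⟨Finset.mem_univ _, h⟩
  calc (((univ : Finset (DirichletCharacter ℂ q)).filter (fun χ => χ ∈ Bad q N g J L)).card : ℝ)
      ≤ (((range (K + 1) ×ˢ range (K + 1)).biUnion (fun p =>
        if p.1 ≤ p.2 ∧ p.2 * g ≤ 6 * N then
          (univ : Finset (DirichletCharacter ℂ q)).filter (fun χ => L ^ 2 < QQ χ (p.1 * g) (p.2 * g) J)
          else ∅)).card : ℝ) := by exact_mod_cast Finset.card_le_card hsub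
    _ ≤ ((∑ p ∈ range (K + 1) ×ˢ range (K + 1), (if p.1 ≤ p.2 ∧ p.2 * g ≤ 6 * N then
          (univ : Finset (DirichletCharacter ℂ q)).filter (fun χ => L ^ 2 < QQ χ (p.1 * g) (p.2 * g) J)
          else ∅).card : ℕ) : ℝ) := by exact_mod_cast Finset.card_biUnion_le
    _ ≤ ∑ p ∈ range (K + 1) ×ˢ range (K + 1), M / L ^ 2 := by
        push_cast
        refine Finset.sum_le_sum fun p _ => ?_
        split_ifs with h
        · exact markov2 hL (hM _ _ h.2)
        · simpa using hML0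
    _ = ((K : ℝ) + 1) ^ 2 * (M / L ^ 2) := by
        rw [Finset.sum_const, Finset.card_product, Finset.card_range, nsmul_eq_mul]
        push_cast
        ring
    _ ≤ _ := by
        gcongr
        rw [hK]
        have := @Nat.cast_div_le ℝ _ _ _ (6 * N) g
        push_cast at this
        exact this

end Pool.Agent.K1H54.GC2
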