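import Pool.Agent.K1H54.GC2.C

/-!
The longer range, part 4: the choice of the parameters.
-/

set_option autoImplicit false

namespace Pool.Agent.K1H54.GC2

open Finset Pool.Agent.K1H54.GC

open Classical in
lemma bad_bound2 (hCNT : S_CNT2) (hMOM : S_MOM2) {ε : ℝ} (hε : 0 < ε) (hε2 : ε ≤ 1 / 2) :
    ∃ C : ℝ, 0 ≤ C ∧ ∀ (q : ℕ) [Fact q.Prime] (N J : ℕ), 1 ≤ N → (J : ℝ) ≤ (2 * (N : ℝ)) ^ (1 - ε) →
      (J : ℝ) ≤ (q : ℝ) ^ (1 / 2 - ε) → (N : ℝ) ^ ε ≤ q →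
      (((univ : Finset (DirichletCharacter ℂ q)).filter
        (fun χ => χ ∈ Bad q N ⌊(N : ℝ) ^ (1 - ε ^ 2 / 8)⌋₊ J ((N : ℝ) ^ (1 - ε ^ 2 / 8)))).card : ℝ) ≤
        C * q * (N : ℝ) ^ (-(ε ^ 2)) := by
  obtain ⟨η, hη⟩ : ∃ η : ℝ, η = ε ^ 2 / 8 := ⟨_, rfl⟩
  have hη0 : 0 < η := by rw [hη]; positivity
  have hη1 : η ≤ 1 := by rw [hη]; nlinarith
  obtain ⟨Cη, hC0, hCη⟩ := hCNT η hη0
  refine ⟨169 * (16 * 80) * Cη, by positivity, ?_⟩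
  intro q _ N J hN hJ hJq hNq
  have hq1 : (1 : ℝ) ≤ q := by exact_mod_cast (Fact.out : q.Prime).one_lt.le
  have hq0 : (0 : ℝ) < q := by linarith
  have hx1 : (1 : ℝ) ≤ N := by exact_mod_cast hN
  obtain ⟨x, hx⟩ : ∃ x : ℝ, x = N := ⟨_, rfl⟩
  rw [← hx] at hJ hx1 hNq ⊢
  have hx0 : 0 < x := by linarith
  rw [← hη]
  obtain ⟨y, hy⟩ : ∃ y : ℝ, y = x ^ η := ⟨_, rfl⟩
  have hy1 : 1 ≤ y := by rw [hy]; exact Real.one_le_rpow hx1 (by positivity)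
  have hy0 : 0 < y := by linarith
  have hyn : ∀ n : ℕ, y ^ n = x ^ (η * n) := by
    intro n
    rw [hy, ← Real.rpow_natCast, ← Real.rpow_mul hx0.le]
  have e1 : x ^ (1 - η) = x / y := by rw [Real.rpow_sub hx0, Real.rpow_one, hy]
  have e4 : x ^ (-(ε ^ 2)) = (y ^ 8)⁻¹ := by
    rw [Real.rpow_neg hx0.le, hyn 8]; congr 2; rw [hη]; push_cast; ring
  have hL1 : 1 ≤ x ^ (1 - η) := Real.one_le_rpow hx1 (by linarith)
  set L := x ^ (1 - η) with hLd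
  have hg1 : 1 ≤ ⌊L⌋₊ := Nat.one_le_floor_iff L |>.2 hL1
  have hg1' : (1 : ℝ) ≤ ⌊L⌋₊ := by exact_mod_cast hg1
  have hg2 : L ≤ 2 * (⌊L⌋₊ : ℝ) := by
    have := Nat.lt_floor_add_one L
    linarith
  have hJ2 : (J : ℝ) ≤ 2 * x := by
    refine hJ.trans ?_
    calc (2 * x) ^ (1 - ε) ≤ (2 * x) ^ (1 : ℝ) :=
          Real.rpow_le_rpow_of_exponent_le (by linarith) (by linarith)
      _ = 2 * x := Real.rpow_one _
  have hJN : J ≤ 2 * N := by rw [hx] at hJ2; exact_mod_cast hJ2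
  have hJ3 : (J : ℝ) ≤ 2 * (x / y ^ 16) := by
    refine hJ.trans ?_
    rw [Real.mul_rpow (by norm_num) hx0.le]
    have h2 : (2 : ℝ) ^ (1 - ε) ≤ 2 := by
      calc (2 : ℝ) ^ (1 - ε) ≤ 2 ^ (1 : ℝ) := Real.rpow_le_rpow_of_exponent_le (by norm_num) (by linarith)
        _ = 2 := Real.rpow_one _
    have h3 : x ^ (1 - ε) ≤ x / y ^ 16 := by
      rw [hyn 16, Real.rpow_sub hx0, Real.rpow_one]
      have : x ^ (η * (16 : ℕ)) ≤ x ^ ε := by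
        apply Real.rpow_le_rpow_of_exponent_le hx1
        rw [hη]; push_cast; nlinarith
      have : 0 < x ^ (η * (16 : ℕ)) := by positivity
      gcongr
    gcongr
  -- `J ^ 2 / q`
  have hJ4 : (J : ℝ) ^ 2 / q ≤ (y ^ 16)⁻¹ := by
    have h1 : (J : ℝ) ^ 2 ≤ (q : ℝ) ^ (1 - 2 * ε) := by
      calc (J : ℝ) ^ 2 ≤ ((q : ℝ) ^ (1 / 2 - ε)) ^ 2 := by gcongr
        _ = (q : ℝ) ^ (1 - 2 * ε) := by
            rw [← Real.rpow_natCast, ← Real.rpow_mul hq0.le]; congr 1; push_cast; ring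
    have h2 : (q : ℝ) ^ (1 - 2 * ε) = q * ((q : ℝ) ^ (2 * ε))⁻¹ := by
      rw [Real.rpow_sub hq0, Real.rpow_one]; rfl
    have h3 : y ^ 16 ≤ (q : ℝ) ^ (2 * ε) := by
      calc y ^ 16 = (x ^ ε) ^ (2 * ε) := by
            rw [hyn 16, ← Real.rpow_mul hx0.le]; congr 1; rw [hη]; push_cast; ring
        _ ≤ (q : ℝ) ^ (2 * ε) := Real.rpow_le_rpow (by positivity) hNq (by linarith)
    rw [div_le_iff₀ hq0]
    calc (J : ℝ) ^ 2 ≤ q * ((q : ℝ) ^ (2 * ε))⁻¹ := h1.trans h2.le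
      _ ≤ q * (y ^ 16)⁻¹ := by gcongr
      _ = _ := by ring
  have hlogf : (16 * x ^ 2) ^ η ≤ 16 * y ^ 2 := by
    rw [Real.mul_rpow (by norm_num) (by positivity)]
    have h1 : (16 : ℝ) ^ η ≤ 16 := by
      calc (16 : ℝ) ^ η ≤ 16 ^ (1 : ℝ) := Real.rpow_le_rpow_of_exponent_le (by norm_num) hη1
        _ = 16 := Real.rpow_one _
    have h2 : (x ^ 2) ^ η = y ^ 2 := by
      rw [hyn 2, ← Real.rpow_natCast x 2, ← Real.rpow_mul hx0.le, mul_comm]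
    rw [h2]
    gcongr
  have hprod : (8 * x * J) * (8 * x * J / q + 1) ≤ 80 * (x ^ 2 / y ^ 16) := by
    have h1 : (8 * x * J) * (8 * x * J / q + 1) = 64 * x ^ 2 * ((J : ℝ) ^ 2 / q) + 8 * x * J := by
      field_simp
      ring
    rw [h1]
    calc 64 * x ^ 2 * ((J : ℝ) ^ 2 / q) + 8 * x * J
        ≤ 64 * x ^ 2 * (y ^ 16)⁻¹ + 8 * x * (2 * (x / y ^ 16)) := by gcongr
      _ = _ := by field_simp; ring
  have hMb : ∀ U1 U2 : ℕ, U2 ≤ 6 * N → ∑ χ : DirichletCharacter ℂ q, QQ χ U1 U2 J ≤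
      q * (Cη * (16 * y ^ 2) * (80 * (x ^ 2 / y ^ 16))) := by
    intro U1 U2 hU2
    refine (moment2 hη0 hC0 hCη hMOM hU2 hJN).trans ?_
    rw [← hx]
    have h0 : 0 ≤ (8 * x * J) * (8 * x * J / q + 1) := by positivity
    gcongr
  have hb := bad_card2 (q := q) (by linarith : 0 < L) hg1 (by positivity) hMb
  refine hb.trans ?_
  rw [← hx]
  have hK : 6 * x / (⌊L⌋₊ : ℝ) + 1 ≤ 13 * y := by
    have h1 : 6 * x / (⌊L⌋₊ : ℝ) ≤ 12 * y := by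
      rw [div_le_iff₀ (by linarith)]
      have h2 : x = L * y := by rw [e1]; field_simp
      calc 6 * x = 6 * y * L := by rw [h2]; ring
        _ ≤ 6 * y * (2 * (⌊L⌋₊ : ℝ)) := by gcongr
        _ = _ := by ring
    linarith
  calc (6 * x / (⌊L⌋₊ : ℝ) + 1) ^ 2 * (q * (Cη * (16 * y ^ 2) * (80 * (x ^ 2 / y ^ 16))) / L ^ 2)
      ≤ (13 * y) ^ 2 * (q * (Cη * (16 * y ^ 2) * (80 * (x ^ 2 / y ^ 16))) / L ^ 2) := by
        gcongr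
    _ = 169 * (16 * 80) * Cη * q * (y ^ 10)⁻¹ := by
        rw [e1]; field_simp; ring
    _ ≤ 169 * (16 * 80) * Cη * q * (y ^ 8)⁻¹ := by
        have : y ^ 8 ≤ y ^ 10 := pow_le_pow_right₀ hy1 (by norm_num)
        gcongr
    _ = _ := by rw [e4]

end Pool.Agent.K1H54.GC2
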