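import Pool.Agent.K1H54.GC2.D

/-!
The longer range, part 5: the union over the scales.
-/

set_option autoImplicit false

namespace Pool.Agent.K1H54.GC2

open Finset Pool.Agent.K1H54.GC

/-- the deviation of the variance -/
def Dev2 (q : ℕ) (ε δ C : ℝ) : Set (DirichletCharacter ℂ q) :=
  {χ | ∃ X H : ℝ, (q : ℝ) ^ ε ≤ X ∧ X ≤ (q : ℝ) ^ (1 / ε) ∧ 1 ≤ H ∧ H ≤ X ^ (1 - ε) ∧
    H ≤ (q : ℝ) ^ (1 / 2 - ε) ∧ C * (H * X ^ (-δ)) < |VV χ X H - 6 / Real.pi ^ 2 * H|}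

open Classical in
theorem main2 (hCNT : S_CNT2) (hMOM : S_MOM2) (hSQF : S_SQF2) (hSand : S_SAND) {ε : ℝ} (hε : 0 < ε)
    (hε2 : ε ≤ 1 / 2) :
    ∃ δ C : ℝ, 0 < δ ∧ ∀ (q : ℕ) [Fact q.Prime],
      (((univ : Finset (DirichletCharacter ℂ q)).filter (fun χ => χ ∈ Dev2 q ε δ C)).card : ℝ) ≤
        C * (q : ℝ) ^ (1 - δ) := by
  obtain ⟨C1, hC1n, hS0⟩ := hSQF
  obtain ⟨Cb, hCb0, hCb⟩ := bad_bound2 hCNT hMOM hε hε2
  obtain ⟨r, hr⟩ : ∃ r : ℝ, r = 2 ^ (-(ε ^ 2 / 2)) := ⟨_, rfl⟩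
  have hε3 : 0 < ε ^ 2 / 2 := by positivity
  have hr0 : 0 ≤ r := by rw [hr]; positivity
  have hr1 : r < 1 := by
    rw [hr]; exact Real.rpow_lt_one_of_one_lt_of_neg (by norm_num) (by linarith)
  obtain ⟨C, hC⟩ : ∃ C : ℝ, C = max (Cb * (2 * (1 - r)⁻¹)) (26 + 6 * C1) := ⟨_, rfl⟩
  obtain ⟨δ, hδ⟩ : ∃ δ : ℝ, δ = ε ^ 3 / 8 := ⟨_, rfl⟩
  have hδ0 : 0 < δ := by rw [hδ]; positivity
  have hδ1 : δ ≤ ε ^ 2 / 8 := by
    rw [hδ]
    have : ε ^ 3 = ε ^ 2 * ε := by ring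
    have : ε ^ 2 * ε ≤ ε ^ 2 * 1 := by gcongr; linarith
    linarith
  have hδ2 : δ ≤ ε ^ 3 / 2 := by
    rw [hδ]
    have : 0 < ε ^ 3 := by positivity
    linarith
  refine ⟨δ, C, hδ0, ?_⟩
  intro q _
  have hqp : q.Prime := Fact.out
  have hq1 : (1 : ℝ) ≤ q := by exact_mod_cast hqp.one_lt.le
  have hq0 : (0 : ℝ) < q := by linarith
  have hS : HS q C1 := fun A B hAB => hS0 q A B hqp.one_lt.le hAB
  set Jk : ℕ → ℕ := fun k => ⌊min ((2 * (2 : ℝ) ^ k) ^ (1 - ε)) ((q : ℝ) ^ (1 / 2 - ε))⌋₊ with hJk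
  set BB : ℕ → Set (DirichletCharacter ℂ q) := fun k =>
    Bad q (2 ^ k) ⌊((2 ^ k : ℕ) : ℝ) ^ (1 - ε ^ 2 / 8)⌋₊ (Jk k) (((2 ^ k : ℕ) : ℝ) ^ (1 - ε ^ 2 / 8)) with hBB
  have hJ0 : ∀ k : ℕ, 0 ≤ min ((2 * (2 : ℝ) ^ k) ^ (1 - ε)) ((q : ℝ) ^ (1 / 2 - ε)) := by
    intro k; positivity
  have hJ1 : ∀ k, (Jk k : ℝ) ≤ (2 * ((2 ^ k : ℕ) : ℝ)) ^ (1 - ε) := by
    intro k
    refine (Nat.floor_le (hJ0 k)).trans ?_
    push_cast
    exact min_le_left _ _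
  have hJ2 : ∀ k, (Jk k : ℝ) ≤ (q : ℝ) ^ (1 / 2 - ε) := fun k =>
    (Nat.floor_le (hJ0 k)).trans (min_le_right _ _)
  set KK : ℕ := ⌈(q : ℝ) ^ (1 / ε)⌉₊ + 1 with hKK
  set KS : Finset ℕ := (range KK).filter (fun k => (q : ℝ) ^ ε ≤ 2 * 2 ^ k ∧ (2 : ℝ) ^ k ≤ (q : ℝ) ^ (1 / ε)) with hKS
  -- `N ^ ε ≤ q`
  have hNε : ∀ k ∈ KS, (((2 ^ k : ℕ) : ℝ)) ^ ε ≤ q := by
    intro k hk
    have h1 := (Finset.mem_filter.1 hk).2.2
    push_cast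
    calc ((2 : ℝ) ^ k) ^ ε ≤ ((q : ℝ) ^ (1 / ε)) ^ ε := Real.rpow_le_rpow (by positivity) h1 hε.le
      _ = q := by rw [← Real.rpow_mul hq0.le, one_div_mul_cancel hε.ne', Real.rpow_one]
  -- the union
  have hsub : (univ : Finset (DirichletCharacter ℂ q)).filter (fun χ => χ ∈ Dev2 q ε δ C) ⊆
      KS.biUnion (fun k => (univ : Finset (DirichletCharacter ℂ q)).filter (fun χ => χ ∈ BB k)) := by
    intro χ hχ
    obtain ⟨X, H, hX, hXq, hH, hHX, hHq, hdev⟩ := (Finset.mem_filter.1 hχ).2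
    have hX1 : 1 ≤ X := (Real.one_le_rpow hq1 hε.le).trans hX
    have hX0 : 0 < X := by linarith
    obtain ⟨k, hk⟩ : ∃ k, k = Nat.log 2 ⌊X⌋₊ := ⟨_, rfl⟩
    have hfl1 : 1 ≤ ⌊X⌋₊ := Nat.one_le_floor_iff X |>.2 hX1
    have hk1 : ((2 ^ k : ℕ) : ℝ) ≤ X := by
      have h1 : 2 ^ k ≤ ⌊X⌋₊ := by rw [hk]; exact Nat.pow_log_le_self 2 (by omega)
      have h2 : ((2 ^ k : ℕ) : ℝ) ≤ (⌊X⌋₊ : ℝ) := by exact_mod_cast h1
      exact h2.trans (Nat.floor_le hX0.le)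
    have hk2 : X ≤ 2 * ((2 ^ k : ℕ) : ℝ) := by
      have h1 : ⌊X⌋₊ < 2 ^ (k + 1) := by rw [hk]; exact Nat.lt_pow_succ_log_self (by norm_num) _
      have h2 : X < (⌊X⌋₊ : ℝ) + 1 := Nat.lt_floor_add_one X
      have h3 : ((⌊X⌋₊ + 1 : ℕ) : ℝ) ≤ ((2 ^ (k + 1) : ℕ) : ℝ) := by exact_mod_cast h1
      push_cast at h3
      push_cast
      rw [pow_succ] at h3
      linarith
    have hkq : (2 : ℝ) ^ k ≤ (q : ℝ) ^ (1 / ε) := by
      push_cast at hk1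
      exact hk1.trans hXq
    have hkKS : k ∈ KS := by
      rw [hKS, Finset.mem_filter, Finset.mem_range]
      refine ⟨?_, ?_, hkq⟩
      · have h1 : ((2 ^ k : ℕ) : ℝ) ≤ (⌈(q : ℝ) ^ (1 / ε)⌉₊ : ℝ) := by
          push_cast
          exact hkq.trans (Nat.le_ceil _)
        have h2 : 2 ^ k ≤ ⌈(q : ℝ) ^ (1 / ε)⌉₊ := by exact_mod_cast h1
        have h3 := @Nat.lt_two_pow_self k
        omega
      · push_cast at hk2
        exact hX.trans hk2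
    rw [Finset.mem_biUnion]
    refine ⟨k, hkKS, ?_⟩
    rw [Finset.mem_filter]
    refine ⟨Finset.mem_univ _, ?_⟩
    by_contra hcon
    apply absurd hdev
    rw [not_lt]
    have hN1 : 1 ≤ 2 ^ k := Nat.one_le_two_pow
    have hN1' : (1 : ℝ) ≤ ((2 ^ k : ℕ) : ℝ) := by exact_mod_cast hN1
    have hNe := hNε k hkKS
    obtain ⟨N, hN⟩ : ∃ N, N = 2 ^ k := ⟨_, rfl⟩
    have hcon' : χ ∉ Bad q N ⌊(N : ℝ) ^ (1 - ε ^ 2 / 8)⌋₊ (Jk k) ((N : ℝ) ^ (1 - ε ^ 2 / 8)) := by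
      rw [hN]; exact hcon
    rw [← hN] at hk1 hk2 hN1 hN1' hNe
    have hε21 : ε ^ 2 / 8 ≤ 1 / 2 := by nlinarith
    have hL1 : 1 ≤ (N : ℝ) ^ (1 - ε ^ 2 / 8) := Real.one_le_rpow hN1' (by linarith)
    have hHX' : H ≤ X := by
      refine hHX.trans ?_
      calc X ^ (1 - ε) ≤ X ^ (1 : ℝ) := Real.rpow_le_rpow_of_exponent_le hX1 (by linarith)
        _ = X := Real.rpow_one X
    have hNp : (N : ℝ) = 2 ^ k := by rw [hN]; push_cast; rfl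
    have hN0 : (0 : ℝ) < N := by linarith
    have hg := good2 hSand χ hS hC1n (N := N) (g := ⌊(N : ℝ) ^ (1 - ε ^ 2 / 8)⌋₊) (J := Jk k)
      (L := (N : ℝ) ^ (1 - ε ^ 2 / 8)) (X := X) (H := H) hN1 (Nat.one_le_floor_iff _ |>.2 hL1) ?_
      (Nat.floor_le (by linarith)) ?_ hk1 hk2 hH hHX' ?_ ?_ ?_
    · -- conclusion
      have h1 : X * |VV χ X H - 6 / Real.pi ^ 2 * H| ≤ X * (C * (H * X ^ (-δ))) := by
        calc X * |VV χ X H - 6 / Real.pi ^ 2 * H| = |X * VV χ X H - 6 / Real.pi ^ 2 * (H * X)| := by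
              rw [← abs_of_pos hX0, ← abs_mul, abs_of_pos hX0]; congr 1; ring
          _ ≤ (26 + 6 * C1) * (H * (N : ℝ) ^ (1 - ε ^ 2 / 8)) := hg
          _ ≤ C * (H * (X * X ^ (-δ))) := by
              have hCC : 26 + 6 * C1 ≤ C := by rw [hC]; exact le_max_right _ _
              have h2 : (N : ℝ) ^ (1 - ε ^ 2 / 8) ≤ X * X ^ (-δ) := by
                calc (N : ℝ) ^ (1 - ε ^ 2 / 8) ≤ X ^ (1 - ε ^ 2 / 8) :=
                      Real.rpow_le_rpow (by positivity) hk1 (by linarith)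
                  _ ≤ X ^ (1 + -δ) := by
                      apply Real.rpow_le_rpow_of_exponent_le hX1
                      linarith
                  _ = X * X ^ (-δ) := by rw [Real.rpow_add hX0, Real.rpow_one]
              have h66 : 0 ≤ 26 + 6 * C1 := by positivity
              have hCn : 0 ≤ C := h66.trans hCC
              gcongr
          _ = X * (C * (H * X ^ (-δ))) := by ring
      exact le_of_mul_le_mul_left h1 hX0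
    · -- g ≤ N
      have h1 : (N : ℝ) ^ (1 - ε ^ 2 / 8) ≤ N := by
        calc (N : ℝ) ^ (1 - ε ^ 2 / 8) ≤ (N : ℝ) ^ (1 : ℝ) :=
              Real.rpow_le_rpow_of_exponent_le hN1' (by linarith [hε3])
          _ = N := Real.rpow_one _
      have h2 := (Nat.floor_le (by linarith : (0 : ℝ) ≤ (N : ℝ) ^ (1 - ε ^ 2 / 8))).trans h1
      exact_mod_cast h2
    · rw [Real.sqrt_eq_rpow]
      exact Real.rpow_le_rpow_of_exponent_le hN1' (by linarith)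
    · -- ⌊H⌋ ≤ J
      apply Nat.floor_le_floor
      apply le_min
      · refine hHX.trans ?_
        rw [hNp] at hk2
        exact Real.rpow_le_rpow hX0.le hk2 (by linarith)
      · exact hHq
    · -- N ≤ L q
      have h1 : (N : ℝ) = (N : ℝ) ^ (1 - ε ^ 2 / 8) * (N : ℝ) ^ (ε ^ 2 / 8) := by
        rw [← Real.rpow_add hN0, sub_add_cancel, Real.rpow_one]
      have h2 : (N : ℝ) ^ (ε ^ 2 / 8) ≤ q := by
        refine le_trans ?_ hNe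
        apply Real.rpow_le_rpow_of_exponent_le hN1'
        nlinarith
      calc (N : ℝ) = (N : ℝ) ^ (1 - ε ^ 2 / 8) * (N : ℝ) ^ (ε ^ 2 / 8) := h1
        _ ≤ (N : ℝ) ^ (1 - ε ^ 2 / 8) * q := by gcongr
    · intro a b hab hb
      by_contra hlt
      exact hcon' ⟨a, b, hab, hb, not_le.1 hlt⟩
  -- the sum
  have hcardk : ∀ k ∈ KS, (((univ : Finset (DirichletCharacter ℂ q)).filter (fun χ => χ ∈ BB k)).card : ℝ) ≤
        Cb * q * (2 * (q : ℝ) ^ (-(ε ^ 3 / 2))) * r ^ k := by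
    intro k hk
    have hk2 := (Finset.mem_filter.1 hk).2.1
    have h1 := hCb q (2 ^ k) (Jk k) Nat.one_le_two_pow (hJ1 k) (hJ2 k) (hNε k hk)
    refine h1.trans ?_
    rw [mul_assoc (Cb * q)]
    gcongr
    push_cast
    have hp : (0 : ℝ) < 2 ^ k := by positivity
    have e1 : ((2 : ℝ) ^ k) ^ (-(ε ^ 2)) =
        ((2 : ℝ) ^ k) ^ (-(ε ^ 2 / 2)) * ((2 : ℝ) ^ k) ^ (-(ε ^ 2 / 2)) := by
      rw [← Real.rpow_add hp]; congr 1; ring
    have e2 : ((2 : ℝ) ^ k) ^ (-(ε ^ 2 / 2)) = r ^ k := by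
      rw [hr]
      generalize -(ε ^ 2 / 2) = s
      rw [← Real.rpow_natCast, ← Real.rpow_mul (by norm_num), ← Real.rpow_natCast,
        ← Real.rpow_mul (by norm_num)]
      congr 1; ring
    rw [e1]
    nth_rewrite 2 [e2]
    gcongr
    have h2 : (q : ℝ) ^ ε / 2 ≤ 2 ^ k := by linarith
    have h3 : (0 : ℝ) < (q : ℝ) ^ ε / 2 := by positivity
    calc ((2 : ℝ) ^ k) ^ (-(ε ^ 2 / 2)) ≤ ((q : ℝ) ^ ε / 2) ^ (-(ε ^ 2 / 2)) :=
          Real.rpow_le_rpow_of_nonpos h3 h2 (by linarith)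
      _ = ((q : ℝ) ^ ε) ^ (-(ε ^ 2 / 2)) * 2 ^ (ε ^ 2 / 2) := by
          rw [Real.div_rpow (by positivity) (by norm_num), Real.rpow_neg (by norm_num : (0 : ℝ) ≤ 2),
            div_inv_eq_mul]
      _ ≤ (q : ℝ) ^ (-(ε ^ 3 / 2)) * 2 := by
          have h4 : ((q : ℝ) ^ ε) ^ (-(ε ^ 2 / 2)) = (q : ℝ) ^ (-(ε ^ 3 / 2)) := by
            rw [← Real.rpow_mul hq0.le]; congr 1; ring
          have h5 : (2 : ℝ) ^ (ε ^ 2 / 2) ≤ 2 := by
            calc (2 : ℝ) ^ (ε ^ 2 / 2) ≤ 2 ^ (1 : ℝ) :=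
                  Real.rpow_le_rpow_of_exponent_le (by norm_num) (by nlinarith)
              _ = 2 := Real.rpow_one _
          rw [h4]
          gcongr
      _ = 2 * (q : ℝ) ^ (-(ε ^ 3 / 2)) := by ring
  calc (((univ : Finset (DirichletCharacter ℂ q)).filter (fun χ => χ ∈ Dev2 q ε δ C)).card : ℝ)
      ≤ ((KS.biUnion (fun k => (univ : Finset (DirichletCharacter ℂ q)).filter (fun χ => χ ∈ BB k))).card : ℝ) := by
        exact_mod_cast Finset.card_le_card hsub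
    _ ≤ ((∑ k ∈ KS, ((univ : Finset (DirichletCharacter ℂ q)).filter (fun χ => χ ∈ BB k)).card : ℕ) : ℝ) := by
        exact_mod_cast Finset.card_biUnion_le
    _ ≤ ∑ k ∈ KS, Cb * q * (2 * (q : ℝ) ^ (-(ε ^ 3 / 2))) * r ^ k := by
        push_cast
        exact Finset.sum_le_sum hcardk
    _ = Cb * q * (2 * (q : ℝ) ^ (-(ε ^ 3 / 2))) * ∑ k ∈ KS, r ^ k := by rw [Finset.mul_sum]
    _ ≤ Cb * q * (2 * (q : ℝ) ^ (-(ε ^ 3 / 2))) * (1 - r)⁻¹ := by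
        gcongr
        rw [← tsum_geometric_of_lt_one hr0 hr1]
        exact (summable_geometric_of_lt_one hr0 hr1).sum_le_tsum _ fun k _ => by positivity
    _ = (Cb * (2 * (1 - r)⁻¹)) * (q : ℝ) ^ (1 - ε ^ 3 / 2) := by
        have e : (q : ℝ) ^ (1 - ε ^ 3 / 2) = q * (q : ℝ) ^ (-(ε ^ 3 / 2)) := by
          rw [sub_eq_add_neg, Real.rpow_add hq0, Real.rpow_one]
        rw [e]; ring
    _ ≤ C * (q : ℝ) ^ (1 - δ) := by
        have h1 : Cb * (2 * (1 - r)⁻¹) ≤ C := by rw [hC]; exact le_max_left _ _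
        have h2 : (q : ℝ) ^ (1 - ε ^ 3 / 2) ≤ (q : ℝ) ^ (1 - δ) :=
          Real.rpow_le_rpow_of_exponent_le hq1 (by linarith)
        have h3 : 0 ≤ C := le_trans (by positivity : (0 : ℝ) ≤ 26 + 6 * C1) (by rw [hC]; exact le_max_right _ _)
        gcongr

end Pool.Agent.K1H54.GC2
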