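import Pool.Agent.K1H54.GC2.C
import Pool.Agent.K1H54.GC.Stm3

/-!
Quadratic twists, part 1: the second moment over the primes and the union bound.
-/

set_option autoImplicit false

namespace Pool.Agent.K1H54.GC2

open Finset Pool.Agent.K1H54.GC

/-- the weighted sum of the squares of the correlations of the Legendre symbol -/
noncomputable def QR (p U1 U2 J : ℕ) : ℝ := ∑ j ∈ Icc 1 J, (zq p U1 U2 j) ^ 2 / j

lemma QR_nonneg (p U1 U2 J : ℕ) : 0 ≤ QR p U1 U2 J := Finset.sum_nonneg fun _ _ => by positivity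

lemma QQ_qc (hZ : S_ZQ) (p : ℕ) [Fact p.Prime] (U1 U2 J : ℕ) : QQ (qc p) U1 U2 J = QR p U1 U2 J := by
  unfold QQ QR
  refine Finset.sum_congr rfl fun j _ => ?_
  rw [hZ p U1 U2 j, Complex.norm_real, Real.norm_eq_abs, sq_abs]

/-- the odd primes `p`, `J < p ≤ Q` -/
def PP (Q J : ℕ) : Finset ℕ := (Icc 1 Q).filter (fun p => p.Prime ∧ p ≠ 2 ∧ J < p)

/-- the hypothesis on the moments -/
def HMO (η Cη : ℝ) : Prop := ∀ Q U1 U2 j : ℕ, 1 ≤ Q → 1 ≤ j →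
  ∑ p ∈ PP Q j, (zq p U1 U2 j) ^ 2 ≤
    Cη * ((Q : ℝ) * ((U2 + j : ℕ) : ℝ) ^ 2) ^ η * ((Q : ℝ) + ((U2 + j : ℕ) : ℝ) ^ 2) *
      (((U2 + j : ℕ) : ℝ) * j) ^ (1 + η)

lemma moment3 {η Cη : ℝ} (hη : 0 < η) (hC : 0 ≤ Cη) (hMO : HMO η Cη) {Q U1 U2 J N : ℕ} (hQ : 1 ≤ Q)
    (hUN : U2 ≤ 6 * N) (hJN : J ≤ 2 * N) :
    ∑ p ∈ PP Q J, QR p U1 U2 J ≤
      Cη * ((Q : ℝ) * (64 * (N : ℝ) ^ 2)) ^ η * (16 * (N : ℝ) ^ 2) ^ η *
        ((8 * N * J) * (Q + 64 * (N : ℝ) ^ 2)) := by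
  have hQ0 : (0 : ℝ) < Q := by exact_mod_cast hQ
  have hN0 : (0 : ℝ) ≤ N := Nat.cast_nonneg _
  unfold QR
  rw [Finset.sum_comm]
  calc ∑ j ∈ Icc 1 J, ∑ p ∈ PP Q J, (zq p U1 U2 j) ^ 2 / j
      ≤ ∑ j ∈ Icc 1 J, Cη * ((Q : ℝ) * (64 * (N : ℝ) ^ 2)) ^ η * (16 * (N : ℝ) ^ 2) ^ η *
        ((8 * N) * (Q + 64 * (N : ℝ) ^ 2)) := by
        refine Finset.sum_le_sum fun j hj => ?_
        rw [Finset.mem_Icc] at hj
        have hj1 : (1 : ℝ) ≤ j := by exact_mod_cast hj.1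
        have hj0 : (0 : ℝ) < j := by linarith
        rw [← Finset.sum_div, div_le_iff₀ hj0]
        have hsub : PP Q J ⊆ PP Q j := by
          intro p hp
          unfold PP at hp ⊢
          rw [Finset.mem_filter] at hp ⊢
          exact ⟨hp.1, hp.2.1, hp.2.2.1, lt_of_le_of_lt hj.2 hp.2.2.2⟩
        refine (Finset.sum_le_sum_of_subset_of_nonneg hsub fun p _ _ => by positivity).trans ?_
        refine (hMO Q U1 U2 j hQ hj.1).trans ?_
        have hB8 : ((U2 + j : ℕ) : ℝ) ≤ 8 * N := by exact_mod_cast (by omega : U2 + j ≤ 8 * N)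
        have hB1 : (1 : ℝ) ≤ ((U2 + j : ℕ) : ℝ) := by exact_mod_cast (by omega : 1 ≤ U2 + j)
        have hB0 : (0 : ℝ) < ((U2 + j : ℕ) : ℝ) := by linarith
        have hj2 : (j : ℝ) ≤ 2 * N := by exact_mod_cast (by omega : j ≤ 2 * N)
        obtain ⟨B, hB⟩ : ∃ B : ℝ, B = ((U2 + j : ℕ) : ℝ) := ⟨_, rfl⟩
        rw [← hB] at hB8 hB1 hB0 ⊢
        have hBj0 : 0 < B * j := by positivity
        have hBj : B * j ≤ 16 * (N : ℝ) ^ 2 := by
          calc B * j ≤ (8 * N) * (2 * N) := by gcongr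
            _ = _ := by ring
        have hB2 : B ^ 2 ≤ 64 * (N : ℝ) ^ 2 := by
          calc B ^ 2 ≤ (8 * N) ^ 2 := by gcongr
            _ = _ := by ring
        rw [Real.rpow_add hBj0, Real.rpow_one]
        calc Cη * ((Q : ℝ) * B ^ 2) ^ η * ((Q : ℝ) + B ^ 2) * (B * j * (B * j) ^ η)
            ≤ Cη * ((Q : ℝ) * (64 * (N : ℝ) ^ 2)) ^ η * ((Q : ℝ) + 64 * (N : ℝ) ^ 2) *
                ((8 * N) * j * (16 * (N : ℝ) ^ 2) ^ η) := by gcongr
          _ = _ := by ring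
    _ = _ := by
        rw [Finset.sum_const, Nat.card_Icc, nsmul_eq_mul]
        have e : ((J + 1 - 1 : ℕ) : ℝ) = J := by simp
        rw [e]
        ring

open Classical in
lemma markov3 {S : Finset ℕ} {U1 U2 J : ℕ} {L M : ℝ} (hL : 0 < L)
    (hM : ∑ p ∈ S, QR p U1 U2 J ≤ M) :
    ((S.filter (fun p => L ^ 2 < QR p U1 U2 J)).card : ℝ) ≤ M / L ^ 2 := by
  rw [le_div_iff₀ (by positivity)]
  refine le_trans ?_ hM
  calc ((S.filter (fun p => L ^ 2 < QR p U1 U2 J)).card : ℝ) * L ^ 2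
      = ∑ p ∈ S.filter (fun p => L ^ 2 < QR p U1 U2 J), L ^ 2 := by
        rw [Finset.sum_const, nsmul_eq_mul]
    _ ≤ ∑ p ∈ S.filter (fun p => L ^ 2 < QR p U1 U2 J), QR p U1 U2 J :=
        Finset.sum_le_sum fun p hp => (Finset.mem_filter.1 hp).2.le
    _ ≤ _ := Finset.sum_le_sum_of_subset_of_nonneg (Finset.filter_subset _ _) fun p _ _ => QR_nonneg p _ _ _

/-- the exceptional primes at one scale -/
def Bad3 (N g J : ℕ) (L : ℝ) (p : ℕ) : Prop :=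
  ∃ a b : ℕ, a ≤ b ∧ b * g ≤ 6 * N ∧ L ^ 2 < QR p (a * g) (b * g) J

open Classical in
lemma bad_card3 {S : Finset ℕ} {N g J : ℕ} {L M : ℝ} (hL : 0 < L) (hg : 1 ≤ g) (hM0 : 0 ≤ M)
    (hM : ∀ U1 U2 : ℕ, U2 ≤ 6 * N → ∑ p ∈ S, QR p U1 U2 J ≤ M) :
    ((S.filter (fun p => Bad3 N g J L p)).card : ℝ) ≤ (6 * N / g + 1) ^ 2 * (M / L ^ 2) := by
  set K := 6 * N / g with hK
  have hML0 : 0 ≤ M / L ^ 2 := by positivity
  have hsub : S.filter (fun p => Bad3 N g J L p) ⊆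
      (range (K + 1) ×ˢ range (K + 1)).biUnion (fun t =>
        if t.1 ≤ t.2 ∧ t.2 * g ≤ 6 * N then
          S.filter (fun p => L ^ 2 < QR p (t.1 * g) (t.2 * g) J) else ∅) := by
    intro p hp
    obtain ⟨hpS, a, b, hab, hb, h⟩ := Finset.mem_filter.1 hp
    rw [Finset.mem_biUnion]
    have hbK : b ≤ K := (Nat.le_div_iff_mul_le hg).2 hb
    refine ⟨(a, b), ?_, ?_⟩
    · rw [Finset.mem_product, Finset.mem_range, Finset.mem_range]
      constructor <;> dsimp only <;> omega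
    · dsimp only
      rw [if_pos ⟨hab, hb⟩, Finset.mem_filter]
      exact ⟨hpS, h⟩
  calc ((S.filter (fun p => Bad3 N g J L p)).card : ℝ)
      ≤ (((range (K + 1) ×ˢ range (K + 1)).biUnion (fun t =>
        if t.1 ≤ t.2 ∧ t.2 * g ≤ 6 * N then
          S.filter (fun p => L ^ 2 < QR p (t.1 * g) (t.2 * g) J) else ∅)).card : ℝ) := by
        exact_mod_cast Finset.card_le_card hsub
    _ ≤ ((∑ t ∈ range (K + 1) ×ˢ range (K + 1), (if t.1 ≤ t.2 ∧ t.2 * g ≤ 6 * N then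
          S.filter (fun p => L ^ 2 < QR p (t.1 * g) (t.2 * g) J) else ∅).card : ℕ) : ℝ) := by
        exact_mod_cast Finset.card_biUnion_le
    _ ≤ ∑ t ∈ range (K + 1) ×ˢ range (K + 1), M / L ^ 2 := by
        push_cast
        refine Finset.sum_le_sum fun t _ => ?_
        split_ifs with h
        · exact markov3 hL (hM _ _ h.2)
        · simpa using hML0
    _ = ((K : ℝ) + 1) ^ 2 * (M / L ^ 2) := by
        rw [Finset.sum_const, Finset.card_product, Finset.card_range, nsmul_eq_mul]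
        push_cast
        ring
    _ ≤ _ := by
        gcongr
        rw [hK]
        have := @Nat.cast_div_le ℝ _ _ _ (6 * N) g
        push_cast at this
        exact this

end Pool.Agent.K1H54.GC2
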