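import Pool.Agent.K1H54.GC2.F

/-!
Quadratic twists, part 2: the choice of the parameters.
-/

set_option autoImplicit false

namespace Pool.Agent.K1H54.GC2

open Finset Pool.Agent.K1H54.GC

open Classical in
lemma bad_bound3 (hMOM : S_MOM3) {ε : ℝ} (hε : 0 < ε) (hε2 : ε ≤ 1 / 2) :
    ∃ C : ℝ, 0 ≤ C ∧ ∀ (Q N J : ℕ), 1 ≤ Q → 1 ≤ N → (J : ℝ) ≤ (2 * (N : ℝ)) ^ (1 - ε) →
      (N : ℝ) * J ≤ (Q : ℝ) ^ (1 - ε) → (N : ℝ) ≤ Q → (Q : ℝ) ^ ε ≤ 2 * N →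
      (((PP Q J).filter (fun p => Bad3 N ⌊(N : ℝ) ^ (1 - ε / 8)⌋₊ J ((N : ℝ) ^ (1 - ε / 8)) p)).card : ℝ) ≤
        C * Q * (N : ℝ) ^ (-(ε / 4)) := by
  obtain ⟨η, hη⟩ : ∃ η : ℝ, η = ε ^ 2 / 32 := ⟨_, rfl⟩
  have hη0 : 0 < η := by rw [hη]; positivity
  have hη1 : η ≤ 1 := by rw [hη]; nlinarith
  obtain ⟨Cη, hC0, hCη⟩ := hMOM η hη0
  refine ⟨169 * (2048 * 528) * Cη, by positivity, ?_⟩
  intro Q N J hQ hN hJ hNJ hNQ hQN
  have hq1 : (1 : ℝ) ≤ Q := by exact_mod_cast hQ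
  have hq0 : (0 : ℝ) < Q := by linarith
  have hx1 : (1 : ℝ) ≤ N := by exact_mod_cast hN
  obtain ⟨x, hx⟩ : ∃ x : ℝ, x = N := ⟨_, rfl⟩
  rw [← hx] at hJ hx1 hNJ hNQ hQN ⊢
  have hx0 : 0 < x := by linarith
  obtain ⟨y, hy⟩ : ∃ y : ℝ, y = x ^ (ε / 8) := ⟨_, rfl⟩
  have hy1 : 1 ≤ y := by rw [hy]; exact Real.one_le_rpow hx1 (by positivity)
  have hy0 : 0 < y := by linarith
  have hyn : ∀ n : ℕ, y ^ n = x ^ (ε / 8 * n) := by
    intro n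
    rw [hy, ← Real.rpow_natCast, ← Real.rpow_mul hx0.le]
  have e1 : x ^ (1 - ε / 8) = x / y := by rw [Real.rpow_sub hx0, Real.rpow_one, hy]
  have e4 : x ^ (-(ε / 4)) = (y ^ 2)⁻¹ := by
    rw [Real.rpow_neg hx0.le, hyn 2]; congr 2; push_cast; ring
  have e8 : y ^ 8 = x ^ ε := by rw [hyn 8]; congr 1; push_cast; ring
  have hL1 : 1 ≤ x ^ (1 - ε / 8) := Real.one_le_rpow hx1 (by linarith)
  set L := x ^ (1 - ε / 8) with hLd
  have hg1 : 1 ≤ ⌊L⌋₊ := Nat.one_le_floor_iff L |>.2 hL1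
  have hg1' : (1 : ℝ) ≤ ⌊L⌋₊ := by exact_mod_cast hg1
  have hg2 : L ≤ 2 * (⌊L⌋₊ : ℝ) := by
    have := Nat.lt_floor_add_one L
    linarith
  have hJ2 : (J : ℝ) ≤ 2 * x := by
    refine hJ.trans ?_
    calc (2 * x) ^ (1 - ε) ≤ (2 * x) ^ (1 : ℝ) :=
          Real.rpow_le_rpow_of_exponent_le (by linarith) (by linarith)
      _ = 2 * x := Real.rpow_one _
  have hJN : J ≤ 2 * N := by rw [hx] at hJ2; exact_mod_cast hJ2
  have hJ3 : (J : ℝ) ≤ 2 * (x / y ^ 8) := by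
    refine hJ.trans ?_
    rw [Real.mul_rpow (by norm_num) hx0.le]
    have h2 : (2 : ℝ) ^ (1 - ε) ≤ 2 := by
      calc (2 : ℝ) ^ (1 - ε) ≤ 2 ^ (1 : ℝ) := Real.rpow_le_rpow_of_exponent_le (by norm_num) (by linarith)
        _ = 2 := Real.rpow_one _
    have h3 : x ^ (1 - ε) = x / y ^ 8 := by
      rw [e8, Real.rpow_sub hx0, Real.rpow_one]
    rw [h3]
    gcongr
  -- `x J ≤ Q / y ^ 8`
  have hJ4 : x * J ≤ Q / y ^ 8 := by
    refine hNJ.trans ?_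
    rw [Real.rpow_sub hq0, Real.rpow_one, e8]
    have : x ^ ε ≤ (Q : ℝ) ^ ε := Real.rpow_le_rpow hx0.le hNQ hε.le
    gcongr
  have hQη : (Q : ℝ) ^ η ≤ 2 * x ^ (ε / 32) := by
    have h1 : (Q : ℝ) ^ η = ((Q : ℝ) ^ ε) ^ (ε / 32) := by
      rw [← Real.rpow_mul hq0.le]; congr 1; rw [hη]; ring
    rw [h1]
    calc ((Q : ℝ) ^ ε) ^ (ε / 32) ≤ (2 * x) ^ (ε / 32) :=
          Real.rpow_le_rpow (by positivity) hQN (by positivity)
      _ = 2 ^ (ε / 32) * x ^ (ε / 32) := Real.mul_rpow (by norm_num) hx0.le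
      _ ≤ 2 * x ^ (ε / 32) := by
          have : (2 : ℝ) ^ (ε / 32) ≤ 2 := by
            calc (2 : ℝ) ^ (ε / 32) ≤ 2 ^ (1 : ℝ) := Real.rpow_le_rpow_of_exponent_le (by norm_num) (by linarith)
              _ = 2 := Real.rpow_one _
          gcongr
  have hlogf : ((Q : ℝ) * (64 * x ^ 2)) ^ η * (16 * x ^ 2) ^ η ≤ 2048 * y := by
    have h1 : ((Q : ℝ) * (64 * x ^ 2)) ^ η * (16 * x ^ 2) ^ η = (Q : ℝ) ^ η * (1024 ^ η * x ^ (4 * η)) := by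
      rw [Real.mul_rpow hq0.le (by positivity), mul_assoc, ← Real.mul_rpow (by positivity) (by positivity)]
      have h2 : 64 * x ^ 2 * (16 * x ^ 2) = 1024 * x ^ 4 := by ring
      rw [h2, Real.mul_rpow (by norm_num) (by positivity)]
      have h3 : (x ^ 4) ^ η = x ^ (4 * η) := by
        rw [← Real.rpow_natCast x 4, ← Real.rpow_mul hx0.le]
        norm_num
      rw [h3]
    rw [h1]
    have h4 : (1024 : ℝ) ^ η ≤ 1024 := by
      calc (1024 : ℝ) ^ η ≤ 1024 ^ (1 : ℝ) := Real.rpow_le_rpow_of_exponent_le (by norm_num) hη1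
        _ = 1024 := Real.rpow_one _
    calc (Q : ℝ) ^ η * (1024 ^ η * x ^ (4 * η)) ≤ (2 * x ^ (ε / 32)) * (1024 * x ^ (4 * η)) := by gcongr
      _ = 2048 * (x ^ (ε / 32) * x ^ (4 * η)) := by ring
      _ = 2048 * x ^ (ε / 32 + 4 * η) := by rw [Real.rpow_add hx0]
      _ ≤ 2048 * y := by
          rw [hy]
          have : x ^ (ε / 32 + 4 * η) ≤ x ^ (ε / 8) := by
            apply Real.rpow_le_rpow_of_exponent_le hx1
            rw [hη]; nlinarith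
          gcongr
  have hprod : (8 * x * J) * (Q + 64 * x ^ 2) ≤ 528 * (Q * x ^ 2 / y ^ 8) := by
    have h1 : (8 * x * J) * (Q + 64 * x ^ 2) = 8 * x * Q * J + 512 * x ^ 2 * (x * J) := by ring
    rw [h1]
    calc 8 * x * Q * J + 512 * x ^ 2 * (x * J)
        ≤ 8 * x * Q * (2 * (x / y ^ 8)) + 512 * x ^ 2 * (Q / y ^ 8) := by gcongr
      _ = _ := by ring
  have hMb : ∀ U1 U2 : ℕ, U2 ≤ 6 * N → ∑ p ∈ PP Q J, QR p U1 U2 J ≤
      Cη * (2048 * y) * (528 * (Q * x ^ 2 / y ^ 8)) := by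
    intro U1 U2 hU2
    refine (moment3 hη0 hC0 hCη hQ hU2 hJN).trans ?_
    rw [← hx]
    have h0 : 0 ≤ (8 * x * J) * (Q + 64 * x ^ 2) := by positivity
    rw [mul_assoc Cη]
    gcongr
  have hb := bad_card3 (by linarith : 0 < L) hg1 (by positivity) hMb
  refine hb.trans ?_
  rw [← hx]
  have hK : 6 * x / (⌊L⌋₊ : ℝ) + 1 ≤ 13 * y := by
    have h1 : 6 * x / (⌊L⌋₊ : ℝ) ≤ 12 * y := by
      rw [div_le_iff₀ (by linarith)]
      have h2 : x = L * y := by rw [e1]; field_simp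
      calc 6 * x = 6 * y * L := by rw [h2]; ring
        _ ≤ 6 * y * (2 * (⌊L⌋₊ : ℝ)) := by gcongr
        _ = _ := by ring
    linarith
  calc (6 * x / (⌊L⌋₊ : ℝ) + 1) ^ 2 * (Cη * (2048 * y) * (528 * (Q * x ^ 2 / y ^ 8)) / L ^ 2)
      ≤ (13 * y) ^ 2 * (Cη * (2048 * y) * (528 * (Q * x ^ 2 / y ^ 8)) / L ^ 2) := by
        gcongr
    _ = 169 * (2048 * 528) * Cη * Q * (y ^ 3)⁻¹ := by
        rw [e1]; field_simp; ring
    _ ≤ 169 * (2048 * 528) * Cη * Q * (y ^ 2)⁻¹ := by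
        have : y ^ 2 ≤ y ^ 3 := pow_le_pow_right₀ hy1 (by norm_num)
        gcongr
    _ = _ := by rw [e4]

end Pool.Agent.K1H54.GC2
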