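import Pool.Agent.K1H54.GC2.G

/-!
Quadratic twists, part 3: the union over the scales.
-/

set_option autoImplicit false

namespace Pool.Agent.K1H54.GC2

open Finset Pool.Agent.K1H54.GC

/-- the sum of `μ(n) (n | p)` over the integers `n` with `|n - x| < H / 2` -/
noncomputable def MR (p : ℕ) (x H : ℝ) : ℝ :=
  ∑ n ∈ (range (⌈x + H⌉₊ + 1)).filter (fun n : ℕ => |(n : ℝ) - x| < H / 2),
    ((ArithmeticFunction.moebius n : ℤ) : ℝ) * (jacobiSym (n : ℤ) p : ℝ)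

/-- the variance -/
noncomputable def VR (p : ℕ) (X H : ℝ) : ℝ := (1 / X) * ∫ x in X..2 * X, (MR p x H) ^ 2

lemma MM_qc (p : ℕ) [Fact p.Prime] (x H : ℝ) : MM (qc p) x H = ((MR p x H : ℝ) : ℂ) := by
  unfold MM MR
  rw [Complex.ofReal_sum]
  refine Finset.sum_congr rfl fun n _ => ?_
  have h : (qc p) (n : ZMod p) = ((jacobiSym (n : ℤ) p : ℤ) : ℂ) := by
    unfold qc
    rw [MulChar.ringHomComp_apply, ← jacobiSym.legendreSym.to_jacobiSym]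
    unfold legendreSym
    simp
  unfold aa
  rw [h]
  push_cast
  ring

lemma VV_qc (p : ℕ) [Fact p.Prime] (X H : ℝ) : VV (qc p) X H = VR p X H := by
  unfold VV VR
  congr 1
  refine intervalIntegral.integral_congr fun x _ => ?_
  show ‖MM (qc p) x H‖ ^ 2 = (MR p x H) ^ 2
  rw [MM_qc, Complex.norm_real, Real.norm_eq_abs, sq_abs]

/-- the primes with a deviation of the variance -/
def Dev3 (Q p : ℕ) (ε δ C : ℝ) : Prop :=
  ∃ X H : ℝ, (Q : ℝ) ^ ε ≤ X ∧ 1 ≤ H ∧ H ≤ X ^ (1 - ε) ∧ H * X ≤ (Q : ℝ) ^ (1 - ε) ∧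
    C * (H * X ^ (-δ)) < |VR p X H - 6 / Real.pi ^ 2 * H|

open Classical in
theorem main3 (hMOM : S_MOM3) (hZ : S_ZQ) (hSQF : S_SQF2) (hSand : S_SAND) {ε : ℝ} (hε : 0 < ε)
    (hε2 : ε ≤ 1 / 2) :
    ∃ δ C : ℝ, 0 < δ ∧ ∀ Q : ℕ, 1 ≤ Q →
      (((Icc 1 Q).filter (fun p => p.Prime ∧ p ≠ 2 ∧ Dev3 Q p ε δ C)).card : ℝ) ≤
        C * (Q : ℝ) ^ (1 - δ) := by
  obtain ⟨C1, hC1n, hS0⟩ := hSQF
  obtain ⟨Cb, hCb0, hCb⟩ := bad_bound3 hMOM hε hε2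
  obtain ⟨r, hr⟩ : ∃ r : ℝ, r = 2 ^ (-(ε / 8)) := ⟨_, rfl⟩
  have hr0 : 0 ≤ r := by rw [hr]; positivity
  have hr1 : r < 1 := by
    rw [hr]; exact Real.rpow_lt_one_of_one_lt_of_neg (by norm_num) (by linarith)
  have hr1' : 0 ≤ (1 - r)⁻¹ := by
    have : 0 < 1 - r := by linarith
    positivity
  obtain ⟨C, hC⟩ : ∃ C : ℝ, C = max (Cb * (2 * (1 - r)⁻¹) + 2) (26 + 6 * C1) := ⟨_, rfl⟩
  obtain ⟨δ, hδ⟩ : ∃ δ : ℝ, δ = ε ^ 2 / 8 := ⟨_, rfl⟩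
  have hδ0 : 0 < δ := by rw [hδ]; positivity
  have hδ1 : δ ≤ ε / 8 := by rw [hδ]; nlinarith
  refine ⟨δ, C, hδ0, ?_⟩
  intro Q hQ
  have hq1 : (1 : ℝ) ≤ Q := by exact_mod_cast hQ
  have hq0 : (0 : ℝ) < Q := by linarith
  set Jk : ℕ → ℕ := fun k => ⌊min ((2 * (2 : ℝ) ^ k) ^ (1 - ε)) ((Q : ℝ) ^ (1 - ε) / 2 ^ k)⌋₊ with hJk
  set BB : ℕ → Finset ℕ := fun k => (PP Q (Jk k)).filter (fun p =>
    Bad3 (2 ^ k) ⌊((2 ^ k : ℕ) : ℝ) ^ (1 - ε / 8)⌋₊ (Jk k) (((2 ^ k : ℕ) : ℝ) ^ (1 - ε / 8)) p) with hBB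
  have hJ0 : ∀ k : ℕ, 0 ≤ min ((2 * (2 : ℝ) ^ k) ^ (1 - ε)) ((Q : ℝ) ^ (1 - ε) / 2 ^ k) := by
    intro k; positivity
  have hJ1 : ∀ k, (Jk k : ℝ) ≤ (2 * ((2 ^ k : ℕ) : ℝ)) ^ (1 - ε) := by
    intro k
    refine (Nat.floor_le (hJ0 k)).trans ?_
    push_cast
    exact min_le_left _ _
  have hJ2 : ∀ k, ((2 ^ k : ℕ) : ℝ) * (Jk k : ℝ) ≤ (Q : ℝ) ^ (1 - ε) := by
    intro k
    have h1 : (Jk k : ℝ) ≤ (Q : ℝ) ^ (1 - ε) / 2 ^ k := (Nat.floor_le (hJ0 k)).trans (min_le_right _ _)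
    rw [le_div_iff₀ (by positivity)] at h1
    push_cast
    linarith
  have hQe : (Q : ℝ) ^ (1 - ε) ≤ Q := by
    calc (Q : ℝ) ^ (1 - ε) ≤ (Q : ℝ) ^ (1 : ℝ) := Real.rpow_le_rpow_of_exponent_le hq1 (by linarith)
      _ = Q := Real.rpow_one _
  set KS : Finset ℕ := (range Q).filter (fun k => (Q : ℝ) ^ ε ≤ 2 * 2 ^ k ∧ (2 : ℝ) ^ k ≤ Q) with hKS
  set SM : Finset ℕ := (Icc 1 Q).filter (fun p => p ^ 2 ≤ 4 * Q) with hSM
  -- the union
  have hsub : (Icc 1 Q).filter (fun p => p.Prime ∧ p ≠ 2 ∧ Dev3 Q p ε δ C) ⊆ SM ∪ KS.biUnion BB := by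
    intro p hp
    obtain ⟨hpQ, hpp, hp2, X, H, hX, hH, hHX, hHq, hdev⟩ := Finset.mem_filter.1 hp
    rw [Finset.mem_union]
    by_cases hsm : p ^ 2 ≤ 4 * Q
    · left
      rw [hSM, Finset.mem_filter]
      exact ⟨hpQ, hsm⟩
    right
    push Not at hsm
    have hsm' : 4 * (Q : ℝ) < (p : ℝ) ^ 2 := by exact_mod_cast hsm
    have hp0 : (0 : ℝ) ≤ p := Nat.cast_nonneg _
    have hX1 : 1 ≤ X := (Real.one_le_rpow hq1 hε.le).trans hX
    have hX0 : 0 < X := by linarith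
    have hXQ : X ≤ Q := by
      have : X ≤ H * X := by nlinarith
      linarith
    obtain ⟨k, hk⟩ : ∃ k, k = Nat.log 2 ⌊X⌋₊ := ⟨_, rfl⟩
    have hfl1 : 1 ≤ ⌊X⌋₊ := Nat.one_le_floor_iff X |>.2 hX1
    have hk1 : ((2 ^ k : ℕ) : ℝ) ≤ X := by
      have h1 : 2 ^ k ≤ ⌊X⌋₊ := by rw [hk]; exact Nat.pow_log_le_self 2 (by omega)
      have h2 : ((2 ^ k : ℕ) : ℝ) ≤ (⌊X⌋₊ : ℝ) := by exact_mod_cast h1
      exact h2.trans (Nat.floor_le hX0.le)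
    have hk2 : X ≤ 2 * ((2 ^ k : ℕ) : ℝ) := by
      have h1 : ⌊X⌋₊ < 2 ^ (k + 1) := by rw [hk]; exact Nat.lt_pow_succ_log_self (by norm_num) _
      have h2 : X < (⌊X⌋₊ : ℝ) + 1 := Nat.lt_floor_add_one X
      have h3 : ((⌊X⌋₊ + 1 : ℕ) : ℝ) ≤ ((2 ^ (k + 1) : ℕ) : ℝ) := by exact_mod_cast h1
      push_cast at h3
      push_cast
      rw [pow_succ] at h3
      linarith
    have hkq : ((2 ^ k : ℕ) : ℝ) ≤ Q := hk1.trans hXQ
    have hkKS : k ∈ KS := by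
      rw [hKS, Finset.mem_filter, Finset.mem_range]
      refine ⟨?_, ?_, ?_⟩
      · have h2 : 2 ^ k ≤ Q := by exact_mod_cast hkq
        exact (Nat.lt_two_pow_self).trans_le h2
      · push_cast at hk2
        exact hX.trans hk2
      · push_cast at hkq
        exact hkq
    have hJp : Jk k < p := by
      have h1 : (Jk k : ℝ) ≤ 2 * 2 ^ k := by
        refine (hJ1 k).trans ?_
        have h1 : (1 : ℝ) ≤ 2 * ((2 ^ k : ℕ) : ℝ) := by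
          have : (1 : ℝ) ≤ ((2 ^ k : ℕ) : ℝ) := by exact_mod_cast Nat.one_le_two_pow
          linarith
        calc (2 * ((2 ^ k : ℕ) : ℝ)) ^ (1 - ε) ≤ (2 * ((2 ^ k : ℕ) : ℝ)) ^ (1 : ℝ) :=
              Real.rpow_le_rpow_of_exponent_le h1 (by linarith)
          _ = 2 * 2 ^ k := by rw [Real.rpow_one]; push_cast; rfl
      have h2 := (hJ2 k).trans hQe
      push_cast at h2
      have hJn : (0 : ℝ) ≤ Jk k := Nat.cast_nonneg _
      have h3 : (Jk k : ℝ) ^ 2 ≤ 2 * Q := by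
        calc (Jk k : ℝ) ^ 2 = Jk k * Jk k := by ring
          _ ≤ (2 * 2 ^ k) * Jk k := by gcongr
          _ = 2 * (2 ^ k * Jk k) := by ring
          _ ≤ 2 * Q := by linarith
      have h4 : (Jk k : ℝ) ^ 2 < (p : ℝ) ^ 2 := by linarith
      have h5 : (Jk k : ℝ) < p := lt_of_pow_lt_pow_left₀ 2 hp0 h4
      exact_mod_cast h5
    rw [Finset.mem_biUnion]
    refine ⟨k, hkKS, ?_⟩
    rw [hBB]
    simp only
    rw [Finset.mem_filter]
    refine ⟨?_, ?_⟩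
    · unfold PP
      rw [Finset.mem_filter]
      exact ⟨hpQ, hpp, hp2, hJp⟩
    by_contra hcon
    apply absurd hdev
    rw [not_lt]
    have hFact : Fact p.Prime := ⟨hpp⟩
    have hS : HS p C1 := fun A B hAB => hS0 p A B hpp.one_lt.le hAB
    have hN1 : 1 ≤ 2 ^ k := Nat.one_le_two_pow
    have hN1' : (1 : ℝ) ≤ ((2 ^ k : ℕ) : ℝ) := by exact_mod_cast hN1
    obtain ⟨N, hN⟩ : ∃ N, N = 2 ^ k := ⟨_, rfl⟩
    have hcon' : ¬ Bad3 N ⌊(N : ℝ) ^ (1 - ε / 8)⌋₊ (Jk k) ((N : ℝ) ^ (1 - ε / 8)) p := by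
      rw [hN]; exact hcon
    rw [← hN] at hk1 hk2 hN1 hN1' hkq
    have hL1 : 1 ≤ (N : ℝ) ^ (1 - ε / 8) := Real.one_le_rpow hN1' (by linarith)
    have hHX' : H ≤ X := by
      refine hHX.trans ?_
      calc X ^ (1 - ε) ≤ X ^ (1 : ℝ) := Real.rpow_le_rpow_of_exponent_le hX1 (by linarith)
        _ = X := Real.rpow_one X
    have hNp : (N : ℝ) = 2 ^ k := by rw [hN]; push_cast; rfl
    have hN0 : (0 : ℝ) < N := by linarith
    have hg := good2 hSand (qc p) hS hC1n (N := N) (g := ⌊(N : ℝ) ^ (1 - ε / 8)⌋₊) (J := Jk k)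
      (L := (N : ℝ) ^ (1 - ε / 8)) (X := X) (H := H) hN1 (Nat.one_le_floor_iff _ |>.2 hL1) ?_
      (Nat.floor_le (by linarith)) ?_ hk1 hk2 hH hHX' ?_ ?_ ?_
    · -- conclusion
      rw [VV_qc] at hg
      have h1 : X * |VR p X H - 6 / Real.pi ^ 2 * H| ≤ X * (C * (H * X ^ (-δ))) := by
        calc X * |VR p X H - 6 / Real.pi ^ 2 * H| = |X * VR p X H - 6 / Real.pi ^ 2 * (H * X)| := by
              rw [← abs_of_pos hX0, ← abs_mul, abs_of_pos hX0]; congr 1; ring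
          _ ≤ (26 + 6 * C1) * (H * (N : ℝ) ^ (1 - ε / 8)) := hg
          _ ≤ C * (H * (X * X ^ (-δ))) := by
              have hCC : 26 + 6 * C1 ≤ C := by rw [hC]; exact le_max_right _ _
              have h2 : (N : ℝ) ^ (1 - ε / 8) ≤ X * X ^ (-δ) := by
                calc (N : ℝ) ^ (1 - ε / 8) ≤ X ^ (1 - ε / 8) :=
                      Real.rpow_le_rpow (by positivity) hk1 (by linarith)
                  _ ≤ X ^ (1 + -δ) := by
                      apply Real.rpow_le_rpow_of_exponent_le hX1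
                      linarith
                  _ = X * X ^ (-δ) := by rw [Real.rpow_add hX0, Real.rpow_one]
              have h66 : 0 ≤ 26 + 6 * C1 := by positivity
              have hCn : 0 ≤ C := h66.trans hCC
              gcongr
          _ = X * (C * (H * X ^ (-δ))) := by ring
      exact le_of_mul_le_mul_left h1 hX0
    · -- g ≤ N
      have h1 : (N : ℝ) ^ (1 - ε / 8) ≤ N := by
        calc (N : ℝ) ^ (1 - ε / 8) ≤ (N : ℝ) ^ (1 : ℝ) :=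
              Real.rpow_le_rpow_of_exponent_le hN1' (by linarith)
          _ = N := Real.rpow_one _
      have h2 := (Nat.floor_le (by linarith : (0 : ℝ) ≤ (N : ℝ) ^ (1 - ε / 8))).trans h1
      exact_mod_cast h2
    · rw [Real.sqrt_eq_rpow]
      exact Real.rpow_le_rpow_of_exponent_le hN1' (by linarith)
    · -- ⌊H⌋ ≤ J
      apply Nat.floor_le_floor
      apply le_min
      · refine hHX.trans ?_
        rw [hNp] at hk2
        exact Real.rpow_le_rpow hX0.le hk2 (by linarith)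
      · rw [le_div_iff₀ (by positivity)]
        rw [hNp] at hk1
        calc H * 2 ^ k ≤ H * X := by gcongr
          _ ≤ (Q : ℝ) ^ (1 - ε) := hHq
    · -- N ≤ L p
      have h1 : (N : ℝ) = (N : ℝ) ^ (1 - ε / 8) * (N : ℝ) ^ (ε / 8) := by
        rw [← Real.rpow_add hN0, sub_add_cancel, Real.rpow_one]
      have h2 : (N : ℝ) ^ (ε / 8) ≤ p := by
        have h3 : (N : ℝ) ^ (ε / 8) ≤ (Q : ℝ) ^ (ε / 8) := Real.rpow_le_rpow hN0.le hkq (by positivity)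
        have h4 : (Q : ℝ) ^ (ε / 8) ≤ √(Q : ℝ) := by
          rw [Real.sqrt_eq_rpow]
          exact Real.rpow_le_rpow_of_exponent_le hq1 (by linarith)
        have h5 : √(Q : ℝ) ≤ p := by
          rw [Real.sqrt_le_left hp0]
          linarith
        linarith
      calc (N : ℝ) = (N : ℝ) ^ (1 - ε / 8) * (N : ℝ) ^ (ε / 8) := h1
        _ ≤ (N : ℝ) ^ (1 - ε / 8) * p := by gcongr
    · intro a b hab hb
      by_contra hlt
      rw [QQ_qc hZ] at hlt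
      exact hcon' ⟨a, b, hab, hb, not_le.1 hlt⟩
  -- the sum
  have hcardk : ∀ k ∈ KS, ((BB k).card : ℝ) ≤ Cb * Q * (2 * (Q : ℝ) ^ (-(ε ^ 2 / 8))) * r ^ k := by
    intro k hk
    have hk2 := (Finset.mem_filter.1 hk).2
    have h1 := hCb Q (2 ^ k) (Jk k) hQ Nat.one_le_two_pow (hJ1 k) (hJ2 k) (by push_cast; exact hk2.2)
      (by push_cast; exact hk2.1)
    refine h1.trans ?_
    rw [mul_assoc (Cb * Q)]
    gcongr
    push_cast
    have hp : (0 : ℝ) < 2 ^ k := by positivity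
    have e1 : ((2 : ℝ) ^ k) ^ (-(ε / 4)) = ((2 : ℝ) ^ k) ^ (-(ε / 8)) * ((2 : ℝ) ^ k) ^ (-(ε / 8)) := by
      rw [← Real.rpow_add hp]; congr 1; ring
    have e2 : ((2 : ℝ) ^ k) ^ (-(ε / 8)) = r ^ k := by
      rw [hr]
      generalize -(ε / 8) = s
      rw [← Real.rpow_natCast, ← Real.rpow_mul (by norm_num), ← Real.rpow_natCast,
        ← Real.rpow_mul (by norm_num)]
      congr 1; ring
    rw [e1]
    nth_rewrite 2 [e2]
    gcongr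
    have h2 : (Q : ℝ) ^ ε / 2 ≤ 2 ^ k := by linarith [hk2.1]
    have h3 : (0 : ℝ) < (Q : ℝ) ^ ε / 2 := by positivity
    calc ((2 : ℝ) ^ k) ^ (-(ε / 8)) ≤ ((Q : ℝ) ^ ε / 2) ^ (-(ε / 8)) :=
          Real.rpow_le_rpow_of_nonpos h3 h2 (by linarith)
      _ = ((Q : ℝ) ^ ε) ^ (-(ε / 8)) * 2 ^ (ε / 8) := by
          rw [Real.div_rpow (by positivity) (by norm_num), Real.rpow_neg (by norm_num : (0 : ℝ) ≤ 2),
            div_inv_eq_mul]
      _ ≤ (Q : ℝ) ^ (-(ε ^ 2 / 8)) * 2 := by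
          have h4 : ((Q : ℝ) ^ ε) ^ (-(ε / 8)) = (Q : ℝ) ^ (-(ε ^ 2 / 8)) := by
            rw [← Real.rpow_mul hq0.le]; congr 1; ring
          have h5 : (2 : ℝ) ^ (ε / 8) ≤ 2 := by
            calc (2 : ℝ) ^ (ε / 8) ≤ 2 ^ (1 : ℝ) :=
                  Real.rpow_le_rpow_of_exponent_le (by norm_num) (by linarith)
              _ = 2 := Real.rpow_one _
          rw [h4]
          gcongr
      _ = 2 * (Q : ℝ) ^ (-(ε ^ 2 / 8)) := by ring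
  have hSMc : ((SM.card : ℕ) : ℝ) ≤ 2 * (Q : ℝ) ^ (1 - δ) := by
    have h1 : SM ⊆ Icc 1 (⌊2 * √(Q : ℝ)⌋₊) := by
      intro p hp
      rw [hSM, Finset.mem_filter] at hp
      rw [Finset.mem_Icc]
      refine ⟨(Finset.mem_Icc.1 hp.1).1, ?_⟩
      apply Nat.le_floor
      have h2 : (p : ℝ) ^ 2 ≤ 4 * Q := by exact_mod_cast hp.2
      have h3 : (p : ℝ) ≤ √(4 * (Q : ℝ)) := Real.le_sqrt_of_sq_le h2
      rw [Real.sqrt_mul (by norm_num), show (4 : ℝ) = 2 ^ 2 by norm_num, Real.sqrt_sq (by norm_num)] at h3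
      exact h3
    have h2 := Finset.card_le_card h1
    rw [Nat.card_Icc, Nat.add_sub_cancel] at h2
    have h3 : ((SM.card : ℕ) : ℝ) ≤ (⌊2 * √(Q : ℝ)⌋₊ : ℝ) := by exact_mod_cast h2
    have h4 : (⌊2 * √(Q : ℝ)⌋₊ : ℝ) ≤ 2 * √(Q : ℝ) := Nat.floor_le (by positivity)
    have h5 : √(Q : ℝ) ≤ (Q : ℝ) ^ (1 - δ) := by
      rw [Real.sqrt_eq_rpow]
      exact Real.rpow_le_rpow_of_exponent_le hq1 (by linarith)
    linarith
  have hsum : (((KS.biUnion BB).card : ℕ) : ℝ) ≤ (Cb * (2 * (1 - r)⁻¹)) * (Q : ℝ) ^ (1 - δ) := by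
    calc (((KS.biUnion BB).card : ℕ) : ℝ) ≤ ((∑ k ∈ KS, (BB k).card : ℕ) : ℝ) := by
          exact_mod_cast Finset.card_biUnion_le
      _ ≤ ∑ k ∈ KS, Cb * Q * (2 * (Q : ℝ) ^ (-(ε ^ 2 / 8))) * r ^ k := by
          push_cast
          exact Finset.sum_le_sum hcardk
      _ = Cb * Q * (2 * (Q : ℝ) ^ (-(ε ^ 2 / 8))) * ∑ k ∈ KS, r ^ k := by rw [Finset.mul_sum]
      _ ≤ Cb * Q * (2 * (Q : ℝ) ^ (-(ε ^ 2 / 8))) * (1 - r)⁻¹ := by
          gcongr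
          rw [← tsum_geometric_of_lt_one hr0 hr1]
          exact (summable_geometric_of_lt_one hr0 hr1).sum_le_tsum _ fun k _ => by positivity
      _ = (Cb * (2 * (1 - r)⁻¹)) * (Q : ℝ) ^ (1 - δ) := by
          have e : (Q : ℝ) ^ (1 - δ) = Q * (Q : ℝ) ^ (-(ε ^ 2 / 8)) := by
            rw [hδ, sub_eq_add_neg, Real.rpow_add hq0, Real.rpow_one]
          rw [e]; ring
  calc (((Icc 1 Q).filter (fun p => p.Prime ∧ p ≠ 2 ∧ Dev3 Q p ε δ C)).card : ℝ)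
      ≤ (((SM ∪ KS.biUnion BB).card : ℕ) : ℝ) := by exact_mod_cast Finset.card_le_card hsub
    _ ≤ ((SM.card : ℕ) : ℝ) + (((KS.biUnion BB).card : ℕ) : ℝ) := by
        exact_mod_cast Finset.card_union_le _ _
    _ ≤ 2 * (Q : ℝ) ^ (1 - δ) + (Cb * (2 * (1 - r)⁻¹)) * (Q : ℝ) ^ (1 - δ) := add_le_add hSMc hsum
    _ = (Cb * (2 * (1 - r)⁻¹) + 2) * (Q : ℝ) ^ (1 - δ) := by ring
    _ ≤ C * (Q : ℝ) ^ (1 - δ) := by
        have h1 : Cb * (2 * (1 - r)⁻¹) + 2 ≤ C := by rw [hC]; exact le_max_left _ _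
        gcongr

end Pool.Agent.K1H54.GC2
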